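import Mathlib
import Pool.Agent.W944.SmoothFinal

set_option autoImplicit false

open MvPolynomial

namespace Pool.Agent.Results.MP_f18ce0_lc.DetComplexitySmooth

universe u

/-- **Determinantal complexity of smooth forms.**  Let `k` be a field and let `F` be a form of
degree `d` in `n` variables over `k` such that `F` and its partial derivatives have no common
zero over the algebraic closure of `k` except the origin.  If `F` is the limit for `ε = 0` of the
determinant of an `N × N` matrix of polynomials of degree at most one over `k(ε)` (for instance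
if `F` is the determinant of such a matrix over `k`) then
`2 (d - 1) ^ (n - 2) ≤ (e (4 N / n + 3)) ^ n` (where `e = exp 1`), and if `d ^ 16 ≤ 2 ^ n` then
`n d ≤ 12 N + 10 n`, i.e. `N ≥ n (d - 10) / 12`.  This holds in particular for the power sum
`∑ X_i ^ d` if `d` is not zero in `k`. -/
theorem result (k : Type u) [Field k] (n d N : ℕ) :
    (∀ F : MvPolynomial (Fin n) k, F.IsHomogeneous d →
      (∀ x : Fin n → AlgebraicClosure k, aeval x F = 0 →
        (∀ i, aeval x (pderiv i F) = 0) → x = 0) →
      ∀ A : Matrix (Fin N) (Fin N) (MvPolynomial (Fin n) (RatFunc k)),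
        (∀ i j, (A i j).totalDegree ≤ 1) →
        (∀ m : Fin n →₀ ℕ, (A.det.coeff m).denom.eval 0 ≠ 0 ∧
          RatFunc.eval (RingHom.id k) 0 (A.det.coeff m) = F.coeff m) →
        (2 ≤ n → 1 ≤ d →
          2 * ((d - 1 : ℕ) : ℝ) ^ (n - 2) ≤ (Real.exp 1 * (4 * N / n + 3)) ^ n) ∧
        (d ^ 16 ≤ 2 ^ n → n * d ≤ 12 * N + 10 * n)) ∧
    ((d : k) ≠ 0 → d ^ 16 ≤ 2 ^ n →
      ∀ A : Matrix (Fin N) (Fin N) (MvPolynomial (Fin n) k),
        (∀ i j, (A i j).totalDegree ≤ 1) → A.det = ∑ i : Fin n, X i ^ d →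
        n * d ≤ 12 * N + 10 * n) := by
  refine ⟨fun F hF hsm A hA hdet => ⟨fun hn hd =>
    Pool.Agent.W944.smooth_general k n d N hn hd F hF hsm A hA hdet, fun hdn =>
    Pool.Agent.W944.smooth_final k n d N hdn F hF hsm A hA hdet⟩, ?_⟩
  intro hd hdn A hA hdet
  obtain ⟨A', hA', hdet'⟩ := Pool.Agent.W944.const_family k N A hA
  exact Pool.Agent.W944.smooth_final k n d N hdn A.det
    (by rw [hdet]; exact Pool.Agent.W944.powerSum_homog k n d)
    (fun x _ hx => Pool.Agent.W944.powerSum_smooth k n d hd x (by rw [← hdet]; exact hx))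
    A' hA' hdet'

end Pool.Agent.Results.MP_f18ce0_lc.DetComplexitySmooth
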