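import Pool.Agent.W942.BrFinal

/-!
# Bracket polynomials: formulas with determinant gates

`bracketPoly k n` (file `Pool/Agent/W942/BrUp.lean`, from `br` in `Pool/Agent/W942/Br.lean`) is a
polynomial in the entries of an `n × n` matrix `X` of variables and in auxiliary variables
`w_{i,a,l}`. The value of an interval of `l` consecutive rows starting at row `i` is `1` for
`l = 0`, the entry `x_{i,0}` for `l = 1`, and for `l ≥ 2` it is `w_{i,0,l}` times the inner product
of the first and the last row of the interval times the value of its interior, plus the sum over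
`0 < a < l` of `w_{i,a,l}` times the value of the first `a` rows times the value of the last
`l - a` rows. `bracketPoly k n` is the value of all the `n` rows.

`RowProgram k n l` (same file): the list `l` of polynomials is a straight-line program, the last
instruction first, in which the two factors of every product have no row of `X` in common.

`Represents k n p` (file `Pool/Agent/W942/BrFinal.lean`): the polynomial `p` in the entries of `X`,
over a field `K`, agrees on the `n × n` matrices with entries `0, 1`, exactly or approximately, with
the bracket polynomial with algebraically independent values of the auxiliary variables.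

`Formula K n` (file `Pool/Agent/W942/Form.lean`): formulas of constants, leaves (an arbitrary
polynomial), binary sums and products, and determinants of square matrices, of any order, of
formulas. `Formula.size` counts the leaves and the gates. `Formula.RowDisjoint t`: each leaf has
variables from at most `t` rows of `X`, the two factors of a product involve disjoint sets of rows,
and so do entries in different rows of the matrix of a determinant gate.
-/

set_option autoImplicit false

namespace Pool.Agent.Results.MP_f18ce0_lc.FormulasWithDeterminants

open MvPolynomial Pool.Agent.W942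

universe u v w x y

/-- The bracket polynomials have degree at most `2 n` and row-disjoint circuits of size at most
`6 (n + 1) ^ 3`. But row-disjoint formulas with determinant gates which represent them, exactly or
approximately, over any field, with leaves in at most `n ^ (1 - δ)` rows, have size at least
`n ^ (δ / 10000 * log n)` for large `n`; the determinant is one gate. -/
theorem result :
    (∀ (k : Type y) [CommRing k] (n : ℕ), (bracketPoly k n).totalDegree ≤ 2 * n ∧
      ∃ l, RowProgram k n l ∧ bracketPoly k n ∈ l ∧ l.length ≤ 6 * (n + 1) ^ 3) ∧
    (∀ (k : Type x) (K : Type v) [Field k] [Field K] [Algebra k K] (n : ℕ) (ω : Wv n → K),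
      AlgebraicIndependent k ω → Represents.{v, v, v, x} k n
        (aeval (Sum.elim (fun ij => X ij) (fun t => C (ω t))) (bracketPoly k n) :
          MvPolynomial (Fin n × Fin n) K)) ∧
    (∀ δ : ℝ, 0 < δ → δ ≤ 1 → ∃ n₀ : ℕ, ∀ n : ℕ, n₀ ≤ n → ∀ (k : Type x) (K : Type v) [Field k]
      [Field K] (t : ℕ) (Φ : Formula K n), (t : ℝ) ≤ (n : ℝ) ^ (1 - δ) → Φ.RowDisjoint t →
        Represents.{u, v, w, x} k n Φ.poly → (n : ℝ) ^ (δ / 10000 * Real.log n) ≤ Φ.size) ∧
    (∀ (n : ℕ) (K : Type y) [CommRing K], ∃ Φ : Formula K n, Φ.RowDisjoint 1 ∧
      Φ.poly = (Matrix.of fun i j => X (i, j) : Matrix (Fin n) (Fin n)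
        (MvPolynomial (Fin n × Fin n) K)).det ∧ Φ.size = n ^ 2 + 1) := by
  refine ⟨fun k _ n => ⟨totalDegree_bracketPoly, bracket_upper⟩,
    fun k K _ _ _ n ω hω => represents_self k K n ω hω, ?_, ?_⟩
  · intro δ hδ hδ1
    refine ⟨max 36 ⌈Real.exp (100000 / δ)⌉₊, fun n hn k K _ _ t Φ ht hΦ hrep => ?_⟩
    obtain ⟨O, F, _, _, _, ι, res, ω, hι, hω, hrep⟩ := hrep
    have h36 : 36 ≤ n := (le_max_left _ _).trans hn
    have hn' : Real.exp (100000 / δ) ≤ n := Nat.ceil_le.1 ((le_max_right _ _).trans hn)
    have hn1 : (1 : ℝ) ≤ n := by
      have : (36 : ℝ) ≤ n := by exact_mod_cast h36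
      linarith
    have h1 : (1 : ℝ) ≤ (n : ℝ) ^ (1 - δ) := Real.one_le_rpow hn1 (by linarith)
    refine asymptotic δ hδ hδ1 n hn' (max t 1) (le_max_right _ _) ?_ Φ.size ?_
    · rw [Nat.cast_max]
      exact max_le ht (by simpa using h1)
    · have h2 := br_formula_lower (k := n / 36) ι hι res ω hω h36 (Nat.mul_div_le n 36) (max t 1)
        (le_max_right _ _) Φ (hΦ.mono (le_max_left _ _)) hrep
      exact_mod_cast h2
  · intro n K _
    classical
    refine ⟨Formula.det n fun i j => Formula.leaf (X (i, j)), ⟨fun a b => ?_, fun a a' b b' h => ?_⟩,
      rfl, ?_⟩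
    · show ((X (a, b) : MvPolynomial (Fin n × Fin n) K).vars.image Prod.fst).card ≤ 1
      rcases subsingleton_or_nontrivial K with hK | hK
      · have : (X (a, b) : MvPolynomial (Fin n × Fin n) K) = 0 := Subsingleton.elim _ _
        rw [this]; simp
      · rw [vars_X]; simp
    · show Disjoint ((X (a, b) : MvPolynomial (Fin n × Fin n) K).vars.image Prod.fst)
        ((X (a', b') : MvPolynomial (Fin n × Fin n) K).vars.image Prod.fst)
      rcases subsingleton_or_nontrivial K with hK | hK
      · have : (X (a, b) : MvPolynomial (Fin n × Fin n) K) = 0 := Subsingleton.elim _ _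
        rw [this]; simp
      · rw [vars_X, vars_X]; simpa using h
    · simp [Formula.size, sq]

end Pool.Agent.Results.MP_f18ce0_lc.FormulasWithDeterminants
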