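import Pool.Agent.W944.V2Law
import Pool.Agent.W944.PkBuild

/-!
# The law of scales: how many products of which skewness compute a power sum

A computation has free linear combinations, and all polynomials of degree at most `δ` are free.
Every product `a s * b s` has formal degrees `p s ≥ δ` and `q s ≥ δ` of its two factors: the factor
`a s` uses only products of formal degree at most `p s`, the factor `b s` uses only products of
formal degree at most `q s`, and the product has the formal degree `p s + q s`.  For `δ = 1` these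
are the usual formal degrees of a circuit.  The smaller one of `p s`, `q s` measures how far the
product is from a skew product: all circuits all of whose products have a factor of formal degree
`1` are skew, and in a general circuit of formal degree `d` it may be as large as `d / 2`.

(1) If a form of degree `d` in `N` variables without singularities is computed, exactly or as a
limit, then for every scale `T ≥ δ`
`N log (d / (33 T)) ≤ 3 ∑ min (1, min (p s, q s) / T)`,
the sum over all products of formal degree `p s + q s > T`.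

(2) For `d = δ 2 ^ D` this is sharp at all scales at the same time.  Let `m k` be the number of
products that we are allowed to use with a factor of formal degree at most `δ 2 ^ k`, `k < D - 1`,
and `m (D - 1)` the number of arbitrary products.  If they suffice, then
`N (D - j) ≤ 300 ∑ k < D, m k min (1, 2 ^ k / 2 ^ j)` for all `j < D`; and for the power sum they
suffice if `8 N (D - j) ≤ ∑ k < D, m k min (1, 2 ^ k / 2 ^ j)` for all `j < D`.
-/

set_option autoImplicit false

open MvPolynomial

namespace Pool.Agent.Results.MP_f18ce0_lc.ScaleLaw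

/-- The sums of a polynomial of total degree at most `δ` and a linear combination, over the field
`K`, of the products `a j * b j` with `j ∈ J`. -/
noncomputable def Available {K σ : Type*} [Field K] {n : ℕ} (δ : ℕ)
    (a b : Fin n → MvPolynomial σ K) (J : Set (Fin n)) : Submodule K (MvPolynomial σ K) :=
  restrictTotalDegree σ K δ ⊔ Submodule.span K ((fun j => a j * b j) '' J)

/-- `a 0 * b 0, …, a (n - 1) * b (n - 1)` are the products of a computation of `F`, and `p s`,
`q s` are formal degrees of the two factors of the product `s`: they are at least `δ`, the factor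
`a s` is a sum of a polynomial of degree at most `δ` and a linear combination of earlier products
`j` of formal degree `p j + q j ≤ p s`, the factor `b s` is a sum of a polynomial of degree at most
`δ` and a linear combination of earlier products `j` of formal degree `p j + q j ≤ q s`, and `F` is
a sum of a polynomial of degree at most `δ` and a linear combination of the products. -/
structure Computes {K σ : Type*} [Field K] {n : ℕ} (δ : ℕ) (p q : Fin n → ℕ)
    (a b : Fin n → MvPolynomial σ K) (F : MvPolynomial σ K) : Prop where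
  left_ge : ∀ s, δ ≤ p s
  right_ge : ∀ s, δ ≤ q s
  left : ∀ s, a s ∈ Available δ a b {j | j < s ∧ p j + q j ≤ p s}
  right : ∀ s, b s ∈ Available δ a b {j | j < s ∧ p j + q j ≤ q s}
  out : F ∈ Available δ a b Set.univ

/-- All coefficients of `F` are defined at `ε = 0` and `F_{ε=0} = f`. -/
def SpecializesTo {K σ : Type*} [Field K] (F : MvPolynomial σ (RatFunc K))
    (f : MvPolynomial σ K) : Prop :=
  ∀ d, (coeff d F).denom.eval 0 ≠ 0 ∧ (coeff d F).eval (RingHom.id K) 0 = coeff d f

/-- A computation with the formal degrees `p`, `q` over `K` computes `f`, or such a computation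
over `K(ε)` computes a polynomial that is defined at `ε = 0` and specializes to `f`. -/
def ComputesOrLimit {K σ : Type*} [Field K] {n : ℕ} (δ : ℕ) (p q : Fin n → ℕ)
    (f : MvPolynomial σ K) : Prop :=
  (∃ a b : Fin n → MvPolynomial σ K, Computes δ p q a b f) ∨
    ∃ (a b : Fin n → MvPolynomial σ (RatFunc K)) (F : MvPolynomial σ (RatFunc K)),
      SpecializesTo F f ∧ Computes δ p q a b F

/-- The partial derivatives of `f` have no common zero over the algebraic closure except `0`. -/
def Nonsingular {K : Type*} [Field K] {N : ℕ} (f : MvPolynomial (Fin N) K) : Prop :=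
  ∀ x : Fin N → AlgebraicClosure K, (∀ v, aeval x (pderiv v f) = 0) → x = 0

/-- The products with the formal degrees `p`, `q` of their factors can be divided into classes
`0, …, D - 1` with at most `m k` products in the class `k`, such that every product of the class
`k < D - 1` has a factor of formal degree at most `δ * 2 ^ k`. -/
def Fits {n : ℕ} (δ D : ℕ) (m : ℕ → ℕ) (p q : Fin n → ℕ) : Prop :=
  ∃ c : Fin n → ℕ, (∀ s, c s < D ∧ (c s < D - 1 → min (p s) (q s) ≤ δ * 2 ^ c s)) ∧
    ∀ k, (Finset.univ.filter fun s => c s = k).card ≤ m k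

/-- The supply of products at the scale `j`: a product of the class `k` counts as
`min (1, 2 ^ k / 2 ^ j)`. -/
noncomputable def supply (D : ℕ) (m : ℕ → ℕ) (j : ℕ) : ℝ :=
  ∑ k ∈ Finset.range D, m k * min 1 (2 ^ k / 2 ^ j)

lemma available_map {K : Type*} [Field K] {N n : ℕ} (δ : ℕ)
    (a b : Fin n → MvPolynomial (Fin N) K) (J : Set (Fin n)) (x : MvPolynomial (Fin N) K)
    (hx : x ∈ Available δ a b J) :
    map (RatFunc.C : K →+* RatFunc K) x ∈
      Available δ (fun t => map (RatFunc.C : K →+* RatFunc K) (a t))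
        (fun t => map (RatFunc.C : K →+* RatFunc K) (b t)) J := by
  unfold Available at hx ⊢
  rw [Submodule.mem_sup] at hx
  obtain ⟨y, hy, z, hz, rfl⟩ := hx
  rw [map_add]
  apply Submodule.add_mem
  · apply Submodule.mem_sup_left
    rw [mem_restrictTotalDegree] at hy ⊢
    exact (Pool.Agent.H632R2.Border.totalDegree_map_le _ _).trans hy
  · apply Submodule.mem_sup_right
    induction hz using Submodule.span_induction with
    | mem y hy =>
      obtain ⟨j, hj, rfl⟩ := hy
      apply Submodule.subset_span
      exact ⟨j, hj, by simp only [map_mul]⟩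
    | zero => rw [map_zero]; exact Submodule.zero_mem _
    | add y z _ _ hy hz => rw [map_add]; exact Submodule.add_mem _ hy hz
    | smul c y _ hy =>
      rw [smul_eq_C_mul, map_mul, map_C, ← smul_eq_C_mul]
      exact Submodule.smul_mem _ _ hy

lemma limit_of {K : Type*} [Field K] {N n δ : ℕ} {p q : Fin n → ℕ}
    {f : MvPolynomial (Fin N) K} (h : ComputesOrLimit δ p q f) :
    ∃ (a b : Fin n → MvPolynomial (Fin N) (RatFunc K)) (F : MvPolynomial (Fin N) (RatFunc K)),
      SpecializesTo F f ∧ Computes δ p q a b F := by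
  rcases h with ⟨a, b, h⟩ | h
  · refine ⟨fun t => map RatFunc.C (a t), fun t => map RatFunc.C (b t), map RatFunc.C f, ?_,
      ⟨h.left_ge, h.right_ge, fun s => available_map δ a b _ _ (h.left s),
      fun s => available_map δ a b _ _ (h.right s), available_map δ a b _ _ h.out⟩⟩
    intro d
    rw [coeff_map]
    constructor
    · rw [RatFunc.denom_C]; simp
    · rw [RatFunc.eval_C]; rfl
  · exact h

/-- the law at the scale `T` -/
theorem law {K : Type*} [Field K] {N n δ d : ℕ} (hδ : 1 ≤ δ) {p q : Fin n → ℕ}
    {f : MvPolynomial (Fin N) K} (hf : f.IsHomogeneous d) (hsm : Nonsingular f)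
    (h : ComputesOrLimit δ p q f) (T : ℝ) (hT : (δ : ℝ) ≤ T) :
    (N : ℝ) * Real.log (d / (33 * T)) ≤
      3 * ∑ s with T < (p s + q s : ℕ), min 1 ((min (p s) (q s) : ℕ) / T) := by
  obtain ⟨a, b, F, hF, hc⟩ := limit_of h
  have h1 := Pool.Agent.W944.V2.law_smooth K N d f hf hsm δ hδ p q hc.left_ge hc.right_ge a b
    hc.left hc.right F hc.out hF T hT
  rw [Finset.sum_filter]
  exact h1

lemma wt_shift (k i l : ℕ) : Pool.Agent.W944.Pk.wt k i ≤ 2 ^ l * Pool.Agent.W944.Pk.wt k (i + l) := by
  unfold Pool.Agent.W944.Pk.wt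
  rw [mul_min_of_nonneg _ _ (by positivity : (0 : ℝ) ≤ 2 ^ l)]
  apply min_le_min
  · rw [mul_one]
    exact one_le_pow₀ (by norm_num)
  · rw [pow_add]
    apply le_of_eq
    field_simp

/-- the sum over the products is at most the supply -/
lemma sum_le_supply {n δ D : ℕ} (hδ : 1 ≤ δ) {m : ℕ → ℕ} {p q : Fin n → ℕ} (h : Fits δ D m p q)
    (i : ℕ) (hi : i < D) :
    ∑ s with ((δ * 2 ^ i : ℕ) : ℝ) < (p s + q s : ℕ),
      min 1 (((min (p s) (q s) : ℕ) : ℝ) / ((δ * 2 ^ i : ℕ) : ℝ)) ≤ supply D m i := by
  obtain ⟨c, hc1, hc2⟩ := h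
  have hδr : (0 : ℝ) < δ := by exact_mod_cast (by omega : 0 < δ)
  have h1 : ∀ s, min 1 (((min (p s) (q s) : ℕ) : ℝ) / ((δ * 2 ^ i : ℕ) : ℝ)) ≤
      Pool.Agent.W944.Pk.wt (c s) i := by
    intro s
    obtain ⟨h2, h3⟩ := hc1 s
    rcases Nat.lt_or_ge (c s) (D - 1) with h4 | h4
    · unfold Pool.Agent.W944.Pk.wt
      apply min_le_min_left
      have h5 : ((min (p s) (q s) : ℕ) : ℝ) ≤ δ * 2 ^ c s := by exact_mod_cast h3 h4
      push_cast at h5 ⊢
      rw [div_le_div_iff₀ (by positivity) (by positivity)]
      calc min (p s : ℝ) (q s : ℝ) * 2 ^ i ≤ δ * 2 ^ c s * 2 ^ i := by gcongr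
        _ = _ := by ring
    · rw [Pool.Agent.W944.Pk.wt_of_le (by omega)]
      exact min_le_left _ _
  calc ∑ s with ((δ * 2 ^ i : ℕ) : ℝ) < (p s + q s : ℕ),
      min 1 (((min (p s) (q s) : ℕ) : ℝ) / ((δ * 2 ^ i : ℕ) : ℝ))
      ≤ ∑ s with ((δ * 2 ^ i : ℕ) : ℝ) < (p s + q s : ℕ), Pool.Agent.W944.Pk.wt (c s) i :=
        Finset.sum_le_sum fun s _ => h1 s
    _ ≤ ∑ s, Pool.Agent.W944.Pk.wt (c s) i := by
        apply Finset.sum_le_sum_of_subset_of_nonneg (Finset.filter_subset _ _)
        intro s _ _
        exact (Pool.Agent.W944.Pk.wt_pos _ _).le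
    _ = ∑ k ∈ Finset.range D, ∑ s with c s = k, Pool.Agent.W944.Pk.wt (c s) i := by
        rw [Finset.sum_fiberwise_of_maps_to]
        intro s _
        exact Finset.mem_range.mpr (hc1 s).1
    _ = ∑ k ∈ Finset.range D, ((Finset.univ.filter fun s => c s = k).card : ℝ) *
          Pool.Agent.W944.Pk.wt k i := by
        apply Finset.sum_congr rfl
        intro k _
        rw [← nsmul_eq_mul, ← Finset.sum_const]
        apply Finset.sum_congr rfl
        intro s hs
        rw [(Finset.mem_filter.mp hs).2]
    _ ≤ supply D m i := by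
        unfold supply
        apply Finset.sum_le_sum
        intro k _
        apply mul_le_mul_of_nonneg_right _ (Pool.Agent.W944.Pk.wt_pos _ _).le
        exact_mod_cast hc2 k

lemma supply_shift (D : ℕ) (m : ℕ → ℕ) (i l : ℕ) : supply D m i ≤ 2 ^ l * supply D m (i + l) := by
  unfold supply
  rw [Finset.mul_sum]
  apply Finset.sum_le_sum
  intro k _
  have h1 := wt_shift k i l
  unfold Pool.Agent.W944.Pk.wt at h1
  calc (m k : ℝ) * min 1 (2 ^ k / 2 ^ i) ≤ m k * (2 ^ l * min 1 (2 ^ k / 2 ^ (i + l))) := by
        gcongr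
    _ = _ := by ring

/-- the necessary condition -/
theorem necessary {K : Type*} [Field K] {N n δ D : ℕ} (hδ : 1 ≤ δ) (hD : 6 ≤ D)
    {p q : Fin n → ℕ} {f : MvPolynomial (Fin N) K} (hf : f.IsHomogeneous (δ * 2 ^ D))
    (hsm : Nonsingular f) (h : ComputesOrLimit δ p q f) {m : ℕ → ℕ} (hm : Fits δ D m p q)
    (j : ℕ) (hj : j < D) : (N : ℝ) * (D - j) ≤ 300 * supply D m j := by
  have hδr : (0 : ℝ) < δ := by exact_mod_cast (by omega : 0 < δ)
  have hNr : (0 : ℝ) ≤ N := by positivity
  have hDr : (6 : ℝ) ≤ D := by exact_mod_cast hD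
  have hlog2 := Real.log_two_gt_d9
  have hlog33 : Real.log 33 ≤ 5.05 * Real.log 2 := by
    have h1 : (33 : ℝ) = 2 ^ 5 * (33 / 32) := by norm_num
    rw [h1, Real.log_mul (by norm_num) (by norm_num), Real.log_pow]
    have h2 := Real.log_le_sub_one_of_pos (show (0 : ℝ) < 33 / 32 by norm_num)
    push_cast
    linarith
  have key : ∀ i, i < D → (N : ℝ) * (((D : ℝ) - i - 5.05) * Real.log 2) ≤ 3 * supply D m i := by
    intro i hi
    have h1 := law hδ hf hsm h ((δ * 2 ^ i : ℕ) : ℝ) (by
      exact_mod_cast Nat.le_mul_of_pos_right δ (by positivity : 0 < 2 ^ i))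
    have h2 := sum_le_supply hδ hm i hi
    have h3 : ((D : ℝ) - i - 5.05) * Real.log 2 ≤
        Real.log (((δ * 2 ^ D : ℕ) : ℝ) / (33 * ((δ * 2 ^ i : ℕ) : ℝ))) := by
      have e1 : ((δ * 2 ^ D : ℕ) : ℝ) / (33 * ((δ * 2 ^ i : ℕ) : ℝ)) = 2 ^ D / 2 ^ i / 33 := by
        push_cast
        field_simp
      rw [e1, Real.log_div (by positivity) (by norm_num), Real.log_div (by positivity)
        (by positivity), Real.log_pow, Real.log_pow]
      linarith
    have h4 := mul_le_mul_of_nonneg_left h3 hNr
    linarith
  have hND : 6 * (N : ℝ) ≤ N * D := by nlinarith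
  have hsup : 0 ≤ supply D m j := by
    unfold supply
    exact Finset.sum_nonneg fun k _ => by positivity
  -- remove the logarithm
  have key2 : ∀ i, i < D → ∀ B : ℝ, supply D m i ≤ B → 0 ≤ B →
      0.6931 * ((N : ℝ) * D - N * i - 5.05 * N) ≤ 3 * B := by
    intro i hi B hB hB0
    have h1 := key i hi
    have e1 : (N : ℝ) * (((D : ℝ) - i - 5.05) * Real.log 2) =
        ((N : ℝ) * D - N * i - 5.05 * N) * Real.log 2 := by ring
    rw [e1] at h1
    rcases le_or_gt ((N : ℝ) * D - N * i - 5.05 * N) 0 with h2 | h2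
    · linarith
    · have h3 : ((N : ℝ) * D - N * i - 5.05 * N) * 0.6931 ≤
          ((N : ℝ) * D - N * i - 5.05 * N) * Real.log 2 :=
        mul_le_mul_of_nonneg_left (by linarith) h2.le
      linarith
  rcases Nat.lt_or_ge j 6 with hj6 | hj6
  · have h1 := supply_shift D m 0 j
    rw [zero_add] at h1
    have h2 := key2 0 (by omega) _ h1 (by positivity)
    push_cast at h2
    interval_cases j <;> norm_num at h2 ⊢ <;> linarith
  · obtain ⟨i, rfl⟩ := Nat.exists_eq_add_of_le hj6
    have h1 := supply_shift D m i 6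
    rw [Nat.add_comm i 6] at h1
    have h2 := key2 i (by omega) _ h1 (by positivity)
    push_cast at h2 ⊢
    have h3 : (N : ℝ) * (D - (6 + i)) = N * D - N * i - 6 * N := by ring
    rw [h3]
    norm_num at h2
    linarith

/-- **The law of scales.**
(1) Let `f` be a form of degree `d` in `N` variables over a field `K` whose partial derivatives have
no common zero except `0` over the algebraic closure; the power sum `∑ x_v ^ d` is such a form if
`d` is not zero in `K`.  If a computation with the formal degrees `p`, `q` of the factors of its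
products computes `f`, exactly or as a limit, then for every real `T ≥ δ`
`N log (d / (33 T)) ≤ 3 ∑ min (1, min (p s, q s) / T)`, where the sum is over the products `s` of
formal degree `p s + q s > T`.
(2) If `d = δ 2 ^ D` with `D ≥ 6` and the products can be divided into classes `0, …, D - 1`, with
at most `m k` products of class `k`, such that the products of class `k < D - 1` have a factor of
formal degree at most `δ 2 ^ k`, then
`N (D - j) ≤ 300 ∑ k < D, m k min (1, 2 ^ k / 2 ^ j)` for all `j < D`.
(3) If `D ≤ N` and `8 N (D - j) ≤ ∑ k < D, m k min (1, 2 ^ k / 2 ^ j)` for all `j < D`, then the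
power sum of degree `δ 2 ^ D` in `N` variables is computed over `K` by such a computation. -/
theorem result {K : Type*} [Field K] (N δ : ℕ) (hδ : 1 ≤ δ) :
    (∀ (d : ℕ) (f : MvPolynomial (Fin N) K), f.IsHomogeneous d → Nonsingular f →
      ∀ (n : ℕ) (p q : Fin n → ℕ), ComputesOrLimit δ p q f →
      (∀ T : ℝ, (δ : ℝ) ≤ T → (N : ℝ) * Real.log (d / (33 * T)) ≤
        3 * ∑ s with T < (p s + q s : ℕ), min 1 ((min (p s) (q s) : ℕ) / T)) ∧
      ∀ (D : ℕ) (m : ℕ → ℕ), 6 ≤ D → d = δ * 2 ^ D → Fits δ D m p q →
        ∀ j < D, (N : ℝ) * (D - j) ≤ 300 * supply D m j) ∧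
    (∀ (D : ℕ) (m : ℕ → ℕ), D ≤ N → (∀ j < D, 8 * (N : ℝ) * (D - j) ≤ supply D m j) →
      ∃ (n : ℕ) (p q : Fin n → ℕ) (a b : Fin n → MvPolynomial (Fin N) K),
        Fits δ D m p q ∧ Computes δ p q a b (∑ v : Fin N, X v ^ (δ * 2 ^ D))) ∧
    (∀ d : ℕ, (d : K) ≠ 0 → (∑ v : Fin N, (X v : MvPolynomial (Fin N) K) ^ d).IsHomogeneous d ∧
      Nonsingular (∑ v : Fin N, (X v : MvPolynomial (Fin N) K) ^ d)) := by
  classical
  refine ⟨fun d f hf hsm n p q h => ⟨fun T hT => law hδ hf hsm h T hT, ?_⟩, ?_, ?_⟩
  · intro D m hD hd hm j hj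
    subst hd
    exact necessary hδ hD hf hsm h hm j hj
  · intro D m hDN h
    obtain ⟨n, a, b, p, q, c, h1, h2, h3, h4, h5, h6, h7⟩ :=
      Pool.Agent.W944.Pk.power_sum K N δ D (fun k => if k < D then m k else 0) (by
        intro j hj
        have h8 := h j hj
        have h9 : ∑ k ∈ Finset.range D, ((if k < D then m k else 0 : ℕ) : ℝ) *
            Pool.Agent.W944.Pk.wt k j = supply D m j := by
          unfold supply
          apply Finset.sum_congr rfl
          intro k hk
          rw [if_pos (Finset.mem_range.mp hk)]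
          rfl
        rw [h9]
        refine le_trans ?_ h8
        have h10 : (0 : ℝ) ≤ (D : ℝ) - j := by
          have : (j : ℝ) ≤ D := by exact_mod_cast hj.le
          linarith
        have h11 : (D : ℝ) ≤ N := by exact_mod_cast hDN
        apply mul_le_mul_of_nonneg_right _ h10
        linarith)
    refine ⟨n, p, q, a, b, ⟨c, fun s => ⟨?_, fun _ => h5 s⟩, fun k => ?_⟩,
      ⟨h1, h2, h3, h4, h7⟩⟩
    · by_contra hcon
      have h8 := h6 (c s)
      rw [if_neg hcon] at h8
      have h9 : s ∈ Finset.univ.filter fun t => c t = c s := by simp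
      have h10 : 0 < (Finset.univ.filter fun t => c t = c s).card := Finset.card_pos.mpr ⟨s, h9⟩
      omega
    · refine (h6 k).trans ?_
      split_ifs
      · exact le_rfl
      · exact Nat.zero_le _
  · exact fun d hd => ⟨Pool.Agent.W944.powerSum_homog K N d,
      fun x hx => Pool.Agent.W944.powerSum_smooth K N d hd x hx⟩

end Pool.Agent.Results.MP_f18ce0_lc.ScaleLaw
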