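import Pool.Agent.W944.WtSmooth
import Pool.Agent.W944.WtUpper

/-!
# A hierarchy between skew circuits and circuits, with matching bounds for power sums

A computation has free linear combinations, and all polynomials of degree at most `δ` are free; its
cost is the number of its products.  Let every product have a level between `0` and `t` such that
the factors of a product use only products of at most the same level.  A product is *light* if its
level is positive and one of its factors uses only products of smaller level; otherwise it is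
*heavy*.  Computations without heavy products are the circuits of Strahler number at most `t`; for
`t = 1` they are the skew circuits.

If a form of degree `d` in `N` variables, without singularities, is computed with `r` heavy products
and `L i` light products of level `i`, exactly or as a limit, then
`d ≤ 1 + 12 δ 6 ^ (r / N) ∏ i = 1 … t, (6 + 5 L i / N)`.
On the other hand the power sum `∑ x_v ^ d` with `d = δ 2 ^ s ∏ i = 1 … t, (c i + 1)` is computed
with `N s` heavy products and `N c i` light products of level `i`.
-/

set_option autoImplicit false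

open MvPolynomial

namespace Pool.Agent.Results.MP_f18ce0_lc.StrahlerHierarchy

/-- The sums of a polynomial of total degree at most `δ` and a linear combination, over the field
`K`, of the products `a j * b j` with `j ∈ J`. -/
noncomputable def Available {K σ : Type*} [Field K] {n : ℕ} (δ : ℕ)
    (a b : Fin n → MvPolynomial σ K) (J : Set (Fin n)) : Submodule K (MvPolynomial σ K) :=
  restrictTotalDegree σ K δ ⊔ Submodule.span K ((fun j => a j * b j) '' J)

/-- `a 0 * b 0, …, a (n - 1) * b (n - 1)` are the products of a computation of `F`, and `lev` is a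
level function for it: both factors of the product `s` are sums of a polynomial of degree at most
`δ` and a linear combination of earlier products of level at most `lev s`, and `F` is a sum of a
polynomial of degree at most `δ` and a linear combination of the products. -/
structure Computes {K σ : Type*} [Field K] {n : ℕ} (δ : ℕ) (lev : Fin n → ℕ)
    (a b : Fin n → MvPolynomial σ K) (F : MvPolynomial σ K) : Prop where
  left : ∀ s, a s ∈ Available δ a b {j | j < s ∧ lev j ≤ lev s}
  right : ∀ s, b s ∈ Available δ a b {j | j < s ∧ lev j ≤ lev s}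
  out : F ∈ Available δ a b Set.univ

/-- The product `s` is light: its level is positive and one of its factors is the sum of a
polynomial of degree at most `δ` and a linear combination of earlier products of level smaller
than `lev s`. -/
def Light {K σ : Type*} [Field K] {n : ℕ} (δ : ℕ) (lev : Fin n → ℕ)
    (a b : Fin n → MvPolynomial σ K) (s : Fin n) : Prop :=
  1 ≤ lev s ∧ (a s ∈ Available δ a b {j | j < s ∧ lev j < lev s} ∨
    b s ∈ Available δ a b {j | j < s ∧ lev j < lev s})

open Classical in
/-- The number of the light products of level `i`. -/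
noncomputable def light {K σ : Type*} [Field K] {n : ℕ} (δ : ℕ) (lev : Fin n → ℕ)
    (a b : Fin n → MvPolynomial σ K) (i : ℕ) : ℕ :=
  (Finset.univ.filter fun s => Light δ lev a b s ∧ lev s = i).card

open Classical in
/-- The number of the other products. -/
noncomputable def heavy {K σ : Type*} [Field K] {n : ℕ} (δ : ℕ) (lev : Fin n → ℕ)
    (a b : Fin n → MvPolynomial σ K) : ℕ :=
  (Finset.univ.filter fun s => ¬ Light δ lev a b s).card

/-- All coefficients of `F` are defined at `ε = 0` and `F_{ε=0} = f`. -/
def SpecializesTo {K σ : Type*} [Field K] (F : MvPolynomial σ (RatFunc K))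
    (f : MvPolynomial σ K) : Prop :=
  ∀ d, (coeff d F).denom.eval 0 ≠ 0 ∧ (coeff d F).eval (RingHom.id K) 0 = coeff d f

/-- The partial derivatives of `f` have no common zero over the algebraic closure except `0`. -/
def Nonsingular {K : Type*} [Field K] {N : ℕ} (f : MvPolynomial (Fin N) K) : Prop :=
  ∀ x : Fin N → AlgebraicClosure K, (∀ v, aeval x (pderiv v f) = 0) → x = 0

/-- The inequality between the degree `d`, the number `N` of variables, the number `r` of the heavy
products and the numbers `L i` of the light products of level `i`, and its form for the total number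
of the light products. -/
def Bound (N d δ t r : ℕ) (L : ℕ → ℕ) : Prop :=
  (d : ℝ) ≤ 1 + 12 * δ * (6 : ℝ) ^ (r / N : ℝ) *
    ∏ i ∈ Finset.Icc 1 t, (6 + 5 * (L i : ℝ) / N) ∧
  ∀ x : ℝ, 0 ≤ x → 12 * δ * (6 : ℝ) ^ (r / N : ℝ) * x ^ t ≤ d - 1 →
    t * (N : ℝ) * (x - 6) ≤ 5 * ∑ i ∈ Finset.Icc 1 t, (L i : ℝ)

theorem second {N d δ t r : ℕ} (hN : 0 < N) (hδ : 1 ≤ δ) {L : ℕ → ℕ}
    (h : (d : ℝ) ≤ 1 + 12 * δ * (6 : ℝ) ^ (r / N : ℝ) *
      ∏ i ∈ Finset.Icc 1 t, (6 + 5 * (L i : ℝ) / N)) : Bound N d δ t r L := by
  refine ⟨h, fun x hx hxm => ?_⟩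
  have hNr : (0 : ℝ) < N := by exact_mod_cast hN
  have hδr : (1 : ℝ) ≤ δ := by exact_mod_cast hδ
  rcases Nat.eq_zero_or_pos t with ht | ht
  · subst ht
    simp
  have htr : (0 : ℝ) < t := by exact_mod_cast ht
  have hA : (0 : ℝ) < 12 * δ * (6 : ℝ) ^ (r / N : ℝ) := by positivity
  set P := ∏ i ∈ Finset.Icc 1 t, (6 + 5 * (L i : ℝ) / N) with hP
  have hP0 : 0 ≤ P := Finset.prod_nonneg fun i _ => by positivity
  have h1 : x ^ t ≤ P := le_of_mul_le_mul_left (hxm.trans (by linarith)) hA
  have h2 := Real.geom_mean_le_arith_mean (Finset.Icc 1 t) (fun _ => 1)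
    (fun i => 6 + 5 * (L i : ℝ) / N) (fun i _ => zero_le_one) (by simpa using ht)
    (fun i _ => by positivity)
  simp only [Real.rpow_one, Finset.sum_const, Nat.card_Icc, Nat.add_sub_cancel, nsmul_eq_mul,
    mul_one, one_mul, Finset.sum_add_distrib] at h2
  rw [← hP] at h2
  have h3 : x ≤ P ^ ((t : ℝ)⁻¹) := by
    calc x = (x ^ t) ^ ((t : ℝ)⁻¹) := by
          rw [← Real.rpow_natCast x t, ← Real.rpow_mul hx, mul_inv_cancel₀ htr.ne', Real.rpow_one]
      _ ≤ P ^ ((t : ℝ)⁻¹) := Real.rpow_le_rpow (by positivity) h1 (by positivity)
  have h4 := h3.trans h2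
  rw [le_div_iff₀ htr] at h4
  have h5 : ∑ i ∈ Finset.Icc 1 t, 5 * (L i : ℝ) / N =
      5 * (∑ i ∈ Finset.Icc 1 t, (L i : ℝ)) / N := by
    rw [Finset.mul_sum, Finset.sum_div]
  rw [h5] at h4
  have h6 : (x * t - t * 6) * N ≤ 5 * (∑ i ∈ Finset.Icc 1 t, (L i : ℝ)) := by
    rw [← le_div_iff₀ (by positivity)]
    linarith
  calc t * (N : ℝ) * (x - 6) = (x * t - t * 6) * N := by ring
    _ ≤ _ := h6

theorem available_swap {K σ : Type*} [Field K] {n : ℕ} (δ : ℕ) (a b a' b' : Fin n → MvPolynomial σ K)
    (h : ∀ t, a' t * b' t = a t * b t) (J : Set (Fin n)) (x : MvPolynomial σ K)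
    (hx : x ∈ Available δ a b J) :
    x ∈ Pool.Agent.W944.Wt.Avail δ (fun j => a' j * b' j) J := by
  have h1 : (fun j => a' j * b' j) = fun j => a j * b j := funext h
  rw [h1]
  exact hx

/-- The bound for limits, with any set `R` that contains the heavy products. -/
theorem limit_bound {K : Type*} [Field K] (N d n δ t : ℕ) (hN : 16 ≤ N) (hNd : N * d ≤ 2 ^ N)
    (hδ : 1 ≤ δ) (f : MvPolynomial (Fin N) K) (hf : f.IsHomogeneous d) (hsm : Nonsingular f)
    (lev : Fin n → ℕ) (hlev : ∀ s, lev s ≤ t) (R : Finset (Fin n))
    (a b : Fin n → MvPolynomial (Fin N) (RatFunc K))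
    (F : MvPolynomial (Fin N) (RatFunc K)) (hF : SpecializesTo F f)
    (h : Computes δ lev a b F) (hR : ∀ s ∉ R, Light δ lev a b s) :
    Bound N d δ t R.card fun i => (Finset.univ.filter fun s => s ∉ R ∧ lev s = i).card := by
  classical
  set a' : Fin n → MvPolynomial (Fin N) (RatFunc K) := fun s =>
    if a s ∈ Available δ a b {j | j < s ∧ lev j < lev s} then a s else b s with ha'
  set b' : Fin n → MvPolynomial (Fin N) (RatFunc K) := fun s =>
    if a s ∈ Available δ a b {j | j < s ∧ lev j < lev s} then b s else a s with hb'
  have hab : ∀ s, a' s * b' s = a s * b s := by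
    intro s
    rw [ha', hb']
    simp only
    split_ifs
    · rfl
    · exact mul_comm _ _
  have hfin := Pool.Agent.W944.Wt.level_smooth_final K N d hN hNd f hf hsm δ t hδ lev R hlev
    (fun s hs => (hR s hs).1) a' b'
    (fun s => by
      apply available_swap δ a b a' b' hab
      rw [ha']
      simp only
      split_ifs
      · exact h.left s
      · exact h.right s)
    (fun s => by
      apply available_swap δ a b a' b' hab
      rw [hb']
      simp only
      split_ifs
      · exact h.right s
      · exact h.left s)
    (fun s hs => by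
      apply available_swap δ a b a' b' hab
      rw [ha']
      simp only
      split_ifs with hc
      · exact hc
      · exact (hR s hs).2.resolve_left hc) F
    (available_swap δ a b a' b' hab _ F h.out) hF
  apply second (by omega) hδ
  refine hfin.trans (le_of_eq ?_)
  congr 2
  rw [Finset.range_eq_Ico, Finset.prod_Ico_add' (fun i =>
    (6 + 5 * (Pool.Agent.W944.Wt.cnt lev R i : ℝ) / (N : ℝ))) 0 t 1]
  apply Finset.prod_congr
  · ext i
    simp only [Finset.mem_Ico, Finset.mem_Icc]
    omega
  · intro i _
    unfold Pool.Agent.W944.Wt.cnt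
    congr

/-- **A hierarchy between skew circuits and circuits.**
(1) Let `f` be a form of degree `d` in `N ≥ 16` variables over a field `K` whose partial derivatives
have no common zero except `0` over the algebraic closure, and `N d ≤ 2 ^ N`. If a computation over
`K` with a level function with values in `{0, …, t}` computes `f`, or such a computation over `K(ε)`
computes a polynomial that is defined at `ε = 0` and specializes to `f`, then
`d ≤ 1 + 12 δ 6 ^ (r / N) ∏ i = 1 … t, (6 + 5 L i / N)` for the number `r` of its heavy products
and the numbers `L i` of its light products of level `i`.  The power sum `∑ x_v ^ d` is such a form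
if `d` is not zero in `K`.
(2) The power sum `∑ x_v ^ d` in `N` variables with `d = δ 2 ^ s ∏ i = 1 … t, (c i + 1)` is computed
over every field by a computation with a level function with values in `{0, …, t}`, at most `N s`
heavy products and at most `N c i` light products of level `i` for `i = 1, …, t`. -/
theorem result {K : Type*} [Field K] (N δ t : ℕ) (hδ : 1 ≤ δ) :
    (∀ d : ℕ, 16 ≤ N → N * d ≤ 2 ^ N →
      (∀ (n : ℕ) (lev : Fin n → ℕ), (∀ s, lev s ≤ t) →
        ∀ f : MvPolynomial (Fin N) K, f.IsHomogeneous d → Nonsingular f →
        (∀ a b : Fin n → MvPolynomial (Fin N) K, Computes δ lev a b f →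
          Bound N d δ t (heavy δ lev a b) (light δ lev a b)) ∧
        (∀ (a b : Fin n → MvPolynomial (Fin N) (RatFunc K))
          (F : MvPolynomial (Fin N) (RatFunc K)), SpecializesTo F f →
          Computes δ lev a b F → Bound N d δ t (heavy δ lev a b) (light δ lev a b))) ∧
      ((d : K) ≠ 0 → (∑ v : Fin N, (X v : MvPolynomial (Fin N) K) ^ d).IsHomogeneous d ∧
        Nonsingular (∑ v : Fin N, (X v : MvPolynomial (Fin N) K) ^ d))) ∧
    (∀ (s : ℕ) (c : ℕ → ℕ), ∃ (n : ℕ) (lev : Fin n → ℕ) (a b : Fin n → MvPolynomial (Fin N) K),
      (∀ s, lev s ≤ t) ∧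
      Computes δ lev a b (∑ v : Fin N, X v ^ (δ * 2 ^ s * ∏ i ∈ Finset.Icc 1 t, (c i + 1))) ∧
      heavy δ lev a b ≤ N * s ∧ ∀ i ∈ Finset.Icc 1 t, light δ lev a b i ≤ N * c i) := by
  classical
  refine ⟨fun d hN hNd => ⟨fun n lev hlev f hf hsm => ⟨?_, ?_⟩, fun hd => ?_⟩, fun s c => ?_⟩
  · intro a b h
    set ρ : K →+* RatFunc K := RatFunc.C with hρ
    have hmap : ∀ (J : Set (Fin n)) (x : MvPolynomial (Fin N) K),
        x ∈ Available δ a b J →
        map ρ x ∈ Available δ (fun t => map ρ (a t)) (fun t => map ρ (b t)) J := by
      intro J x hx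
      unfold Available at hx ⊢
      rw [Submodule.mem_sup] at hx
      obtain ⟨y, hy, z, hz, rfl⟩ := hx
      rw [map_add]
      apply Submodule.add_mem
      · apply Submodule.mem_sup_left
        rw [mem_restrictTotalDegree] at hy ⊢
        exact (Pool.Agent.H632R2.Border.totalDegree_map_le _ _).trans hy
      · apply Submodule.mem_sup_right
        induction hz using Submodule.span_induction with
        | mem y hy =>
          obtain ⟨j, hj, rfl⟩ := hy
          apply Submodule.subset_span
          exact ⟨j, hj, by simp only [map_mul]⟩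
        | zero => rw [map_zero]; exact Submodule.zero_mem _
        | add y z _ _ hy hz => rw [map_add]; exact Submodule.add_mem _ hy hz
        | smul c y _ hy =>
          rw [smul_eq_C_mul, map_mul, map_C, ← smul_eq_C_mul]
          exact Submodule.smul_mem _ _ hy
    have h1 := limit_bound N d n δ t hN hNd hδ f hf hsm lev hlev
      (Finset.univ.filter fun s => ¬ Light δ lev a b s) (fun t => map ρ (a t))
      (fun t => map ρ (b t)) (map ρ f) (by
        intro d
        rw [coeff_map]
        constructor
        · rw [hρ, RatFunc.denom_C]; simp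
        · rw [hρ, RatFunc.eval_C]; rfl)
      ⟨fun s => hmap _ _ (h.left s), fun s => hmap _ _ (h.right s), hmap _ _ h.out⟩
      (fun s hs => by
        simp only [Finset.mem_filter, Finset.mem_univ, true_and, not_not] at hs
        exact ⟨hs.1, hs.2.imp (hmap _ _) (hmap _ _)⟩)
    have h2 : heavy δ lev a b = (Finset.univ.filter fun s => ¬ Light δ lev a b s).card := by
      unfold heavy
      congr
    have h3 : light δ lev a b = fun i => (Finset.univ.filter fun s =>
        s ∉ (Finset.univ.filter fun s => ¬ Light δ lev a b s) ∧ lev s = i).card := by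
      funext i
      unfold light
      congr 1
      ext s
      simp
    rw [h2, h3]
    exact h1
  · intro a b F hF h
    have h1 := limit_bound N d n δ t hN hNd hδ f hf hsm lev hlev
      (Finset.univ.filter fun s => ¬ Light δ lev a b s) a b F hF h
      (fun s hs => by
        simp only [Finset.mem_filter, Finset.mem_univ, true_and, not_not] at hs
        exact hs)
    have h2 : heavy δ lev a b = (Finset.univ.filter fun s => ¬ Light δ lev a b s).card := by
      unfold heavy
      congr
    have h3 : light δ lev a b = fun i => (Finset.univ.filter fun s =>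
        s ∉ (Finset.univ.filter fun s => ¬ Light δ lev a b s) ∧ lev s = i).card := by
      funext i
      unfold light
      congr 1
      ext s
      simp
    rw [h2, h3]
    exact h1
  · exact ⟨Pool.Agent.W944.powerSum_homog K N d,
      fun x hx => Pool.Agent.W944.powerSum_smooth K N d hd x hx⟩
  · obtain ⟨n, a, b, lev, hv, h1, h2, h3, h4, h5⟩ :=
      Pool.Agent.W944.Wt.has_all (K := K) N δ s c t
    refine ⟨n, lev, a, b, h2.1, ⟨h1.left, h1.right, ?_⟩, ?_, ?_⟩
    · apply Submodule.sum_mem
      intro v _
      have h6 : Pool.Agent.W944.Wt.Avail δ (fun j => a j * b j) {j | lev j ≤ t} ≤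
          Available δ a b Set.univ := by
        unfold Pool.Agent.W944.Wt.Avail Available
        exact sup_le_sup le_rfl (Submodule.span_mono (Set.image_mono (Set.subset_univ _)))
      exact h6 (h5 v)
    · rw [← h4]
      unfold heavy Pool.Agent.W944.Wt.cH
      rw [← Finset.card_filter]
      apply Finset.card_le_card
      intro s hs
      simp only [Finset.mem_filter, Finset.mem_univ, true_and] at hs ⊢
      by_contra hcon
      have h6 : hv s = false := by simpa using hcon
      obtain ⟨h7, h8⟩ := h1.light s h6
      exact hs ⟨h7, Or.inl h8⟩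
    · intro i hi
      have h6 := h3 i
      simp only at h6
      rw [if_pos hi] at h6
      rw [← h6]
      unfold light Pool.Agent.W944.Wt.cL
      rw [← Finset.card_filter]
      apply Finset.card_le_card
      intro s hs
      simp only [Finset.mem_filter, Finset.mem_univ, true_and] at hs ⊢
      refine ⟨?_, hs.2⟩
      by_contra hcon
      have h7 := h2.2 s (by simpa using hcon)
      rw [Finset.mem_Icc] at hi
      omega

end Pool.Agent.Results.MP_f18ce0_lc.StrahlerHierarchy
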