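import Pool.Agent.W942.BrFinal

/-!
# Bracket polynomials: sums of tree-structured networks

`bracketPoly k n` (file `Pool/Agent/W942/BrUp.lean`, from `br` in `Pool/Agent/W942/Br.lean`) is a
polynomial in the entries of an `n × n` matrix `X` of variables and in auxiliary variables
`w_{i,a,l}`. The value of an interval of `l` consecutive rows starting at row `i` is `1` for
`l = 0`, the entry `x_{i,0}` for `l = 1`, and for `l ≥ 2` it is `w_{i,0,l}` times the inner product
of the first and the last row of the interval times the value of its interior, plus the sum over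
`0 < a < l` of `w_{i,a,l}` times the value of the first `a` rows times the value of the last
`l - a` rows. `bracketPoly k n` is the value of all the `n` rows.

`RowProgram k n l` (same file): the list `l` of polynomials is a straight-line program, the last
instruction first, in which the two factors of every product have no row of `X` in common.

`Represents k n p` (file `Pool/Agent/W942/BrFinal.lean`): the polynomial `p` in the entries of `X`,
over a field `K`, agrees on the `n × n` matrices with entries `0, 1`, exactly or approximately, with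
the bracket polynomial with algebraically independent values of the auxiliary variables.

`Net K n m` (file `Pool/Agent/W942/Net.lean`): tree-structured networks with `m` outputs. A leaf
carries `m` arbitrary polynomials. A node has `M` subnetworks, `M` arbitrary, with vectors
`g_1, ..., g_M` of outputs, and each output of the node is the sum of `c` determinants of `M × M`
matrices whose `a`-th row consists of linear combinations of the entries of `g_a`.
`Net.Valid w z`: every leaf has variables from fewer than `z` rows of `X`, every node has at most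
`w` outputs and `c ≤ w`, and different subnetworks of a node have disjoint sets of rows of `X`. So
`w` is a width; a set-multilinear branching program of width `w` which reads the rows of `X` in any
order is such a network, and the determinant of `X` is one with `w = 1`.
-/

set_option autoImplicit false

namespace Pool.Agent.Results.MP_f18ce0_lc.SumsOfNetworks

open MvPolynomial Pool.Agent.W942

universe u v w x y

/-- The bracket polynomials have degree at most `2 n` and row-disjoint circuits of size at most
`6 (n + 1) ^ 3`. But if a sum of `s` networks of width at most `w`, with arbitrary trees, represents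
the bracket polynomial, exactly or approximately, over any field, then
`exp (n ^ (1 / 3) / 300) ≤ 2 (n + 1) ^ 2 * (s * w)` if the leaves have fewer than `10 ^ 6` rows, and
`exp (n / (8 z)) ≤ 2 (n + 1) ^ 2 * s` if the leaves have fewer than `z` rows, `w ≤ 2 ^ q` and
`z ≥ 10 ^ 6 * q ^ 2`. The determinant, and the entries of products of `w × w` matrices which depend
on disjoint sets of rows, are single networks. -/
theorem result :
    (∀ (k : Type y) [CommRing k] (n : ℕ), (bracketPoly k n).totalDegree ≤ 2 * n ∧
      ∃ l, RowProgram k n l ∧ bracketPoly k n ∈ l ∧ l.length ≤ 6 * (n + 1) ^ 3) ∧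
    (∀ (k : Type x) (K : Type v) [Field k] [Field K] [Algebra k K] (n : ℕ) (ω : Wv n → K),
      AlgebraicIndependent k ω → Represents.{v, v, v, x} k n
        (aeval (Sum.elim (fun ij => X ij) (fun t => C (ω t))) (bracketPoly k n) :
          MvPolynomial (Fin n × Fin n) K)) ∧
    (∀ (n s w : ℕ), 36 ≤ n → 1 ≤ w → ∀ (k : Type x) (K : Type v) [Field k] [Field K]
      (Φ : Fin s → Net K n 1), (∀ i, (Φ i).Valid w (10 ^ 6)) →
        Represents.{u, v, w, x} k n (∑ i, (Φ i).poly 0) →
        Real.exp ((n : ℝ) ^ (1 / 3 : ℝ) / 300) ≤ 2 * ((n : ℝ) + 1) ^ 2 * (s * w)) ∧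
    (∀ (n s w z q : ℕ), 36 ≤ n → 1 ≤ q → w ≤ 2 ^ q → 10 ^ 6 * q ^ 2 ≤ z →
      ∀ (k : Type x) (K : Type v) [Field k] [Field K] (Φ : Fin s → Net K n 1),
        (∀ i, (Φ i).Valid w z) → Represents.{u, v, w, x} k n (∑ i, (Φ i).poly 0) →
        Real.exp ((n : ℝ) / (8 * z)) ≤ 2 * ((n : ℝ) + 1) ^ 2 * s) ∧
    (∀ (n : ℕ) (K : Type y) [CommRing K], ∃ Φ : Net K n 1, Φ.Valid 1 2 ∧
      Φ.poly 0 = (Matrix.of fun a b => X (a, b) : Matrix (Fin n) (Fin n)
        (MvPolynomial (Fin n × Fin n) K)).det) ∧
    (∀ (n w z r : ℕ), 1 ≤ w → 1 ≤ z → ∀ (K : Type y) [CommRing K] (B : Fin r → Finset (Fin n))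
      (A : Fin r → Matrix (Fin w) (Fin w) (MvPolynomial (Fin n × Fin n) K)),
      (∀ t t', t ≠ t' → Disjoint (B t) (B t')) → (∀ t, (B t).card < z) →
      (∀ t i j, ∀ v ∈ (A t i j).vars, v.1 ∈ B t) →
      ∀ i j, ∃ Φ : Net K n 1, Φ.Valid w z ∧ Φ.poly 0 = (List.ofFn A).prod i j) := by
  refine ⟨fun k _ n => ⟨totalDegree_bracketPoly, bracket_upper⟩,
    fun k K _ _ _ n ω hω => represents_self k K n ω hω, ?_, ?_, fun n K _ => det_net n K,
    fun _ _ _ _ hw hz _ _ B A hB hBz hA i j => Net.ofProd_entry hw hz B A hB hBz hA i j⟩
  · intro n s w h36 hw k K _ _ Φ hΦ hrep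
    obtain ⟨O, F, _, _, _, ι, res, ω, hι, hω, hrep⟩ := hrep
    exact br_net_lower_cube ι hι res ω hω h36 hw Φ hΦ hrep
  · intro n s w z q h36 hq hw hz k K _ _ Φ hΦ hrep
    obtain ⟨O, F, _, _, _, ι, res, ω, hι, hω, hrep⟩ := hrep
    exact br_net_lower ι hι res ω hω h36 hq hw hz Φ hΦ hrep

end Pool.Agent.Results.MP_f18ce0_lc.SumsOfNetworks
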